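import Pool.Agent.H41.PNF.Cnt
import Pool.Agent.H41.PRK.CTMY
import Pool.Agent.H37.T1.CTRK

/-!
# PNF: the number of the pairs with local conditions
-/

set_option autoImplicit false
set_option linter.overlappingInstances false
set_option linter.unusedSectionVars false

namespace Pool.PNF

open Polynomial Matrix NumberField IsDedekindDomain Pool.HYP Pool.TOW Pool.AVS Pool.T1 Pool.PRK

/-! ### Symmetric matrices with given residues modulo coprime ideals -/

theorem mem_prod' {R : Type} [CommRing R] {ι : Type} (t : Finset ι) (J : ι → Ideal R)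
    (hco : ∀ a ∈ t, ∀ b ∈ t, a ≠ b → IsCoprime (J a) (J b)) (x : R) (h : ∀ a ∈ t, x ∈ J a) :
    x ∈ ∏ a ∈ t, J a := by
  classical
  induction t using Finset.induction_on with
  | empty => simp
  | insert a t ha ih =>
    rw [Finset.prod_insert ha]
    have h1 : IsCoprime (J a) (∏ b ∈ t, J b) := by
      refine IsCoprime.prod_right fun b hb => ?_
      exact hco a (Finset.mem_insert_self a t) b (Finset.mem_insert_of_mem hb) (by
        rintro rfl
        exact ha hb)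
    rw [Ideal.mul_eq_inf_of_isCoprime h1]
    exact ⟨h a (Finset.mem_insert_self a t), ih (fun b hb c hc => hco b (Finset.mem_insert_of_mem hb)
      c (Finset.mem_insert_of_mem hc)) (fun b hb => h b (Finset.mem_insert_of_mem hb))⟩

theorem ysr : YSRStmt := by
  classical
  intro R _ n ι T J hJF hco X B M hB hM
  have hfX : ∀ P : T, (X P).Finite := fun P => by
    have := hJF P.1 P.2
    exact Set.toFinite _
  set Q : ℕ := ∏ P ∈ T, Nat.card (R ⧸ J P) with hQ
  set I : Ideal R := ∏ P ∈ T, J P with hI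
  set 𝒮 : Set (Matrix (Fin n) (Fin n) R) := {S | Sᵀ = S ∧ (∀ i j, S i j ∈ B i j) ∧
      ∀ P ∈ T, S.map (Ideal.Quotient.mk (J P)) ∈ X P} with h𝒮
  have hfin : 𝒮.Finite := by
    have h1 : (Set.univ.pi fun i : Fin n => Set.univ.pi fun j : Fin n => B i j).Finite :=
      Set.Finite.pi fun i => Set.Finite.pi fun j => hB i j
    refine h1.subset ?_
    rintro S ⟨_, h2, _⟩ i _ j _
    exact h2 i j
  have hM0 : ∀ i j, 0 ≤ (if i ≤ j then M i j else 1 : ℝ) := fun i j => by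
    by_cases h : i ≤ j
    · rw [if_pos h]
      exact le_trans (by positivity) (hM i j h 0)
    · rw [if_neg h]
      exact zero_le_one
  have hPM0 : 0 ≤ Pool.NF.Cnt.prLe M :=
    Finset.prod_nonneg fun i _ => Finset.prod_nonneg fun j _ => hM0 i j
  let A : Finset (∀ P : T, Matrix (Fin n) (Fin n) (R ⧸ J P.1)) :=
    Fintype.piFinset (fun P : T => (hfX P).toFinset)
  have hA : A.card = ∏ P ∈ T, (X P).ncard := by
    rw [Fintype.card_piFinset, ← Finset.prod_coe_sort T (fun P => (X P).ncard)]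
    refine Finset.prod_congr rfl fun P _ => ?_
    rw [Set.ncard_eq_toFinset_card _ (hfX P)]
  let ρ : Matrix (Fin n) (Fin n) R →
      (∀ P : T, Matrix (Fin n) (Fin n) (R ⧸ J P.1)) :=
    fun S P => S.map (Ideal.Quotient.mk (J P.1))
  have hρ : Set.MapsTo ρ (hfin.toFinset : Set (Matrix (Fin n) (Fin n) R)) A := by
    intro S hS
    rw [Finset.mem_coe, Set.Finite.mem_toFinset] at hS
    rw [Finset.mem_coe, Fintype.mem_piFinset]
    intro P
    rw [Set.Finite.mem_toFinset]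
    exact hS.2.2 P P.2
  have hfib : ∀ b ∈ A, ({S ∈ hfin.toFinset | ρ S = b}.card : ℝ) * (Q : ℝ) ^ (n * (n + 1) / 2) ≤
      Pool.NF.Cnt.prLe M := by
    intro b _
    rcases Finset.eq_empty_or_nonempty {S ∈ hfin.toFinset | ρ S = b} with h0 | ⟨S₀, hS₀⟩
    · rw [h0, Finset.card_empty, Nat.cast_zero, zero_mul]
      exact hPM0
    rw [Finset.mem_filter, Set.Finite.mem_toFinset] at hS₀
    have hfN : ∀ i j, {a ∈ B i j | a - S₀ i j ∈ I}.Finite := fun i j =>
      (hB i j).subset (Set.sep_subset _ _)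
    let B' : Finset (Fin n → Fin n → R) := Fintype.piFinset fun i => Fintype.piFinset fun j =>
      if i ≤ j then (hfN i j).toFinset else {0}
    have hBc : (B'.card : ℝ) = ∏ i, ∏ j, (if i ≤ j then
        ({a ∈ B i j | a - S₀ i j ∈ I}.ncard : ℝ) else 1) := by
      rw [Fintype.card_piFinset, Nat.cast_prod]
      refine Finset.prod_congr rfl fun i _ => ?_
      rw [Fintype.card_piFinset, Nat.cast_prod]
      refine Finset.prod_congr rfl fun j _ => ?_
      by_cases h : i ≤ j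
      · rw [if_pos h, if_pos h, Set.ncard_eq_toFinset_card _ (hfN i j)]
      · rw [if_neg h, if_neg h, Finset.card_singleton, Nat.cast_one]
    have h1 : {S ∈ hfin.toFinset | ρ S = b}.card ≤ B'.card := by
      apply Finset.card_le_card_of_injOn (fun S i j => if i ≤ j then S i j else 0)
      · intro S hS
        rw [Finset.mem_coe, Finset.mem_filter, Set.Finite.mem_toFinset] at hS
        rw [Finset.mem_coe, Fintype.mem_piFinset]
        intro i
        rw [Fintype.mem_piFinset]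
        intro j
        by_cases hij : i ≤ j
        · simp only [if_pos hij]
          rw [Set.Finite.mem_toFinset]
          refine ⟨hS.1.2.1 i j, mem_prod' T J hco _ fun P hP => ?_⟩
          have h2 := congrFun (hS.2.trans hS₀.2.symm) ⟨P, hP⟩
          have h3 := congrFun (congrFun h2 i) j
          exact Ideal.Quotient.eq.mp h3
        · simp only [if_neg hij]
          exact Finset.mem_singleton_self _
      · intro S hS S' hS' heq
        rw [Finset.mem_coe, Finset.mem_filter, Set.Finite.mem_toFinset] at hS hS'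
        refine Pool.T137.sym_ext hS.1.1 hS'.1.1 fun i j hij => ?_
        have h2 := congrFun (congrFun heq i) j
        simp only [if_pos hij] at h2
        exact h2
    have h1' : ({S ∈ hfin.toFinset | ρ S = b}.card : ℝ) ≤ B'.card := by exact_mod_cast h1
    have h2 : (Q : ℝ) ^ (n * (n + 1) / 2) =
        ∏ i : Fin n, ∏ j : Fin n, (if i ≤ j then (Q : ℝ) else 1) := by
      have h3 : Q ^ (n * (n + 1) / 2) =
          ∏ i : Fin n, ∏ j : Fin n, (if i ≤ j then Q ^ 1 else 1) := by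
        rw [← Pool.T137.sumLe_one, ← Pool.T137.prod_sumLe]
      simp only [pow_one] at h3
      exact_mod_cast h3
    calc ({S ∈ hfin.toFinset | ρ S = b}.card : ℝ) * (Q : ℝ) ^ (n * (n + 1) / 2)
        ≤ B'.card * (Q : ℝ) ^ (n * (n + 1) / 2) :=
          mul_le_mul_of_nonneg_right h1' (by positivity)
      _ = ∏ i, ∏ j, ((if i ≤ j then
          ({a ∈ B i j | a - S₀ i j ∈ I}.ncard : ℝ) else 1) *
            (if i ≤ j then (Q : ℝ) else 1)) := by
        rw [h2, hBc, ← Finset.prod_mul_distrib]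
        refine Finset.prod_congr rfl fun i _ => ?_
        rw [← Finset.prod_mul_distrib]
      _ ≤ Pool.NF.Cnt.prLe M := by
        unfold Pool.NF.Cnt.prLe
        refine Finset.prod_le_prod (fun i _ => Finset.prod_nonneg fun j _ => ?_) fun i _ =>
          Finset.prod_le_prod (fun j _ => ?_) fun j _ => ?_
        · split_ifs <;> positivity
        · split_ifs <;> positivity
        · by_cases h : i ≤ j
          · rw [if_pos h, if_pos h, if_pos h]
            exact hM i j h (S₀ i j)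
          · rw [if_neg h, if_neg h, if_neg h, mul_one]
  have hcard : (𝒮.ncard : ℝ) = ∑ b ∈ A, ({S ∈ hfin.toFinset | ρ S = b}.card : ℝ) := by
    rw [Set.ncard_eq_toFinset_card _ hfin, Finset.card_eq_sum_card_fiberwise hρ, Nat.cast_sum]
  rw [hcard, Finset.sum_mul, ← hA]
  calc ∑ b ∈ A, ({S ∈ hfin.toFinset | ρ S = b}.card : ℝ) * (Q : ℝ) ^ (n * (n + 1) / 2)
      ≤ ∑ _b ∈ A, Pool.NF.Cnt.prLe M := Finset.sum_le_sum hfib
    _ = (A.card : ℝ) * Pool.NF.Cnt.prLe M := by rw [Finset.sum_const, nsmul_eq_mul]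


/-! ### Pairs -/

section Pairs

variable {R : Type} [CommRing R]

/-- The ideals. -/
def J2 [IsDomain R] : HeightOneSpectrum R ⊕ HeightOneSpectrum R → Ideal R
  | .inl P => P.asIdeal
  | .inr P => P.asIdeal ^ 3

/-- The sets of residues. -/
def Y2 [IsDomain R] (g : ℕ) (c : HeightOneSpectrum R → R) (γ : HeightOneSpectrum R → R[X])
    (y : HeightOneSpectrum R → Ty) (d : R) (G : Matrix (Fin (2 * g + 1)) (Fin (2 * g + 1)) R) :
    ∀ a : HeightOneSpectrum R ⊕ HeightOneSpectrum R,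
      Set (Matrix (Fin (2 * g + 1)) (Fin (2 * g + 1)) (R ⧸ J2 a))
  | .inl P => CTM41.Y1 g P.asIdeal d (c P) (γ P) (y P).2 G
  | .inr P => CTM41.Y3 g P.asIdeal d (c P) (γ P) G

theorem mem_Y1' [IsDedekindDomain R] {g : ℕ} {P : HeightOneSpectrum R} {c d : R} {γ : R[X]}
    (hγ : γ.Monic) {e : ZMod 2} {G S : Matrix (Fin (2 * g + 1)) (Fin (2 * g + 1)) R}
    (hst : UnS (2 * g + 1) P.asIdeal d c γ ((X - C c) * γ) e G S) :
    S.map (Ideal.Quotient.mk P.asIdeal) ∈ CTM41.Y1 g P.asIdeal d c γ e G := by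
  obtain ⟨a, p, ha, hp, he, he', hG, hS⟩ := hst
  have hnt : (1 : R ⧸ P.asIdeal) ≠ 0 := by
    have : Nontrivial (R ⧸ P.asIdeal) := Ideal.Quotient.nontrivial_iff.2 P.isPrime.ne_top
    exact one_ne_zero
  have hfm : md P.asIdeal ((X - C c) * γ) =
      (X - C (Ideal.Quotient.mk P.asIdeal c)) * md P.asIdeal γ := by
    unfold md
    rw [Polynomial.map_mul, Polynomial.map_sub, Polynomial.map_X, Polynomial.map_C]
  have hcomp : ∀ k, (aᵀ * gr k (2 * g + 1) ((X - C c) * γ) p * a).map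
      (Ideal.Quotient.mk P.asIdeal) =
      (a.map (Ideal.Quotient.mk P.asIdeal))ᵀ * gr k (2 * g + 1)
      ((X - C (Ideal.Quotient.mk P.asIdeal c)) * md P.asIdeal γ) (md P.asIdeal p) *
      a.map (Ideal.Quotient.mk P.asIdeal) := by
    intro k
    rw [Matrix.map_mul, Matrix.map_mul, CTM41.gr_map _ ((monic_X_sub_C c).mul hγ) _ _ _ hnt,
      ← hfm, Matrix.transpose_map]
  refine ⟨a.map (Ideal.Quotient.mk P.asIdeal), md P.asIdeal p, ?_, ?_, ?_, ?_, ?_, ?_⟩
  · rw [← RingHom.mapMatrix_apply, ← RingHom.map_det]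
    intro h0
    exact ha (Ideal.Quotient.eq_zero_iff_mem.1 h0)
  · rw [← hfm]
    exact hp
  · rw [he]
    unfold md
    rw [Polynomial.eval_map_apply]
  · exact he'
  · rw [CTM41.map_cong hG, hcomp]
  · rw [CTM41.map_cong hS, ← hcomp]
    ext i j
    simp only [Matrix.map_apply, Matrix.smul_apply, smul_eq_mul, map_mul]

/-- The product of the local factors. -/
theorem prod_Y2 (hX : CTXYStmt) (hF : FBKStmt) (hP3 : P3KStmt) [IsDedekindDomain R] {g : ℕ}
    (hg : 1 ≤ g) {T : Finset (HeightOneSpectrum R)} {c : HeightOneSpectrum R → R}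
    {γ : HeightOneSpectrum R → R[X]} (hok : ∀ P ∈ T, OkP (2 * g) P.asIdeal (γ P))
    (h2 : ∀ P ∈ T, (2 : R) ∉ P.asIdeal)
    (hfin : ∀ P : HeightOneSpectrum R, Finite (R ⧸ P.asIdeal))
    (hT : ∀ P ∈ T, 2 * (2 * g + 1) * T.card ≤ Nm P) (y : HeightOneSpectrum R → Ty) {d : R}
    (hd : ∀ P ∈ odd T y, d ∈ P.asIdeal ∧ d ∉ P.asIdeal ^ 2)
    (hd' : ∀ P ∈ T, P ∉ odd T y → d ∉ P.asIdeal)
    (G : Matrix (Fin (2 * g + 1)) (Fin (2 * g + 1)) R) (A B : Finset (HeightOneSpectrum R))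
    (hA : ∀ P, P ∈ A ↔ P ∈ T ∧ P ∉ odd T y) (hB : B = odd T y) :
    2 ^ T.card * ((∏ P ∈ A, (CTM41.Y1 g P.asIdeal d (c P) (γ P) (y P).2 G).ncard) *
        ∏ P ∈ B, (CTM41.Y3 g P.asIdeal d (c P) (γ P) G).ncard) ≤
      2 * ((∏ P ∈ A, Nm P) ^ ((2 * g + 1) * g) *
        (∏ P ∈ B, Nm P) ^ ((2 * g + 1) * (2 * g + 1))) := by
  classical
  subst hB
  have hsub : odd T y ⊆ T := Finset.filter_subset _ _
  have hA' : A = T \ odd T y := by
    ext P
    rw [hA, Finset.mem_sdiff]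
  subst hA'
  set A := T \ odd T y with hAd
  set B := odd T y with hBd
  have hsp : ∀ F : HeightOneSpectrum R → ℕ, (∏ P ∈ A, F P) * ∏ P ∈ B, F P = ∏ P ∈ T, F P :=
    fun F => Finset.prod_sdiff hsub
  have h1 : (∏ P ∈ A, 2 * (Nm P - (2 * g + 1))) *
      (∏ P ∈ A, (CTM41.Y1 g P.asIdeal d (c P) (γ P) (y P).2 G).ncard) ≤
      (∏ P ∈ A, Nm P) * (∏ P ∈ A, Nm P) ^ ((2 * g + 1) * g) := by
    rw [← Finset.prod_mul_distrib, ← Finset.prod_pow, ← Finset.prod_mul_distrib]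
    refine Finset.prod_le_prod' fun P hP => ?_
    have := (hA P).1 hP
    exact CTM41.card_Y1 hX hg (h2 P this.1) (hfin P) (hd' P this.1 this.2) (hok P this.1) _ G
  have h1' : (∏ P ∈ B, 2 * (Nm P - (2 * g + 1))) *
      (∏ P ∈ B, (CTM41.Y3 g P.asIdeal d (c P) (γ P) G).ncard) ≤
      (∏ P ∈ B, Nm P) * (∏ P ∈ B, Nm P) ^ ((2 * g + 1) * (2 * g + 1)) := by
    rw [← Finset.prod_mul_distrib, ← Finset.prod_pow, ← Finset.prod_mul_distrib]
    exact Finset.prod_le_prod' fun P hP =>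
      CTM41.card_Y3 hF hP3 hg (h2 P (hsub hP)) (hfin P) (hd P hP).1 (hd P hP).2
        (hok P (hsub hP)) G
  have h3 := Pool.HYP59.prod_sub T (2 * g + 1) (fun P => Nm P) hT (by omega)
  have h5 := hsp (fun P => 2 * (Nm P - (2 * g + 1)))
  have h6 := hsp (fun P => Nm P)
  have h5' : ∏ P ∈ T, 2 * (Nm P - (2 * g + 1)) =
      2 ^ T.card * ∏ P ∈ T, (Nm P - (2 * g + 1)) := by
    rw [Finset.prod_mul_distrib, Finset.prod_const]
  rw [h5'] at h5
  have hq : 0 < ∏ P ∈ T, Nm P := Finset.prod_pos fun P _ => by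
    have := hfin P
    have hnt : Nontrivial (R ⧸ P.asIdeal) := Ideal.Quotient.nontrivial_iff.2 P.isPrime.ne_top
    exact Nat.card_pos
  set U := ∏ P ∈ A, Nm P
  set V := ∏ P ∈ B, Nm P
  set M := ∏ P ∈ T, Nm P
  set a := ∏ P ∈ A, 2 * (Nm P - (2 * g + 1))
  set b := ∏ P ∈ B, 2 * (Nm P - (2 * g + 1))
  set s := ∏ P ∈ A, (CTM41.Y1 g P.asIdeal d (c P) (γ P) (y P).2 G).ncard
  set t := ∏ P ∈ B, (CTM41.Y3 g P.asIdeal d (c P) (γ P) G).ncard
  set m := ∏ P ∈ T, (Nm P - (2 * g + 1))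
  apply Nat.le_of_mul_le_mul_left _ hq
  calc M * (2 ^ T.card * (s * t)) ≤ 2 * m * (2 ^ T.card * (s * t)) :=
        Nat.mul_le_mul_right _ h3
    _ = 2 * ((2 ^ T.card * m) * (s * t)) := by ring
    _ = 2 * ((a * s) * (b * t)) := by rw [← h5]; ring
    _ ≤ 2 * ((U * U ^ ((2 * g + 1) * g)) * (V * V ^ ((2 * g + 1) * (2 * g + 1)))) :=
        Nat.mul_le_mul_left _ (Nat.mul_le_mul h1 h1')
    _ = M * (2 * (U ^ ((2 * g + 1) * g) * V ^ ((2 * g + 1) * (2 * g + 1)))) := by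
        rw [← h6]
        ring

end Pairs

theorem ypr : YPRStmt := by
  classical
  intro hX hF hP3 R _ _ g T y c γ d hg hfin h2 hok hT hd1 hd2 A B MA MB hAf hBf hMA hMB W hW
  have hsub : odd T y ⊆ T := Finset.filter_subset _ _
  obtain ⟨V', hV'⟩ : ∃ V', V' = odd T y := ⟨_, rfl⟩
  obtain ⟨U', hU'⟩ : ∃ U', U' = T \ odd T y := ⟨_, rfl⟩
  have hmU : ∀ P, P ∈ U' ↔ P ∈ T ∧ P ∉ odd T y := fun P => by
    rw [hU', Finset.mem_sdiff]
  have hVT : ∀ P ∈ V', P ∈ T := fun P hP => hsub (hV' ▸ hP)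
  have hUV' : ∀ P ∈ U', ∀ P' ∈ V', P ≠ P' := by
    rintro P hP P' hP' rfl
    exact ((hmU P).1 hP).2 (hV' ▸ hP')
  set t : Finset (HeightOneSpectrum R ⊕ HeightOneSpectrum R) := U'.disjSum V' with ht
  have hpt : ∀ {M : Type} [CommMonoid M] (F : HeightOneSpectrum R ⊕ HeightOneSpectrum R → M),
      ∏ a ∈ t, F a = (∏ P ∈ U', F (.inl P)) * ∏ P ∈ V', F (.inr P) := by
    intro M _ F
    rw [ht, Finset.prod_disjSum]
  have hcopPP : ∀ P P' : HeightOneSpectrum R, P ≠ P' → IsCoprime P.asIdeal P'.asIdeal := by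
    intro P P' hne
    have := P.isMaximal
    have := P'.isMaximal
    exact Ideal.isCoprime_of_isMaximal fun h => hne (HeightOneSpectrum.ext h)
  have hmt1 : ∀ P, (.inl P : HeightOneSpectrum R ⊕ HeightOneSpectrum R) ∈ t →
      P ∈ U' := fun P hP => by
    simpa [ht] using hP
  have hmt2 : ∀ P, (.inr P : HeightOneSpectrum R ⊕ HeightOneSpectrum R) ∈ t →
      P ∈ V' := fun P hP => by
    simpa [ht] using hP
  have hcop : ∀ a ∈ t, ∀ a' ∈ t, a ≠ a' → IsCoprime (J2 a) (J2 a') := by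
    rintro (P | P) ha (P' | P') ha' hne
    · exact hcopPP P P' fun h => hne (by rw [h])
    · exact (hcopPP P P' (hUV' P (hmt1 P ha) P' (hmt2 P' ha'))).pow_right
    · exact (hcopPP P P' (hUV' P' (hmt1 P' ha') P (hmt2 P ha)).symm).pow_left
    · exact (hcopPP P P' fun h => hne (by rw [h])).pow
  have hP3' : ∀ P ∈ V', Nat.card (R ⧸ P.asIdeal ^ 3) = Nm P ^ 3 ∧
      Finite (R ⧸ P.asIdeal ^ 3) := fun P hP => by
    have hP' : P ∈ odd T y := hV' ▸ hP
    have h3 := hP3 R P d (hfin P) (h2 P (hVT P hP)) (hd1 P hP').1 (hd1 P hP').2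
    exact ⟨h3.2.2.2.1, h3.2.1⟩
  have hJF : ∀ a ∈ t, Finite (R ⧸ J2 a) := by
    rintro (P | P) ha
    · exact hfin P
    · exact (hP3' P (hmt2 P ha)).2
  -- the norms
  obtain ⟨U, hU⟩ : ∃ U, U = ∏ P ∈ U', Nm P := ⟨_, rfl⟩
  obtain ⟨V, hV⟩ : ∃ V, V = ∏ P ∈ V', Nm P := ⟨_, rfl⟩
  have hsd : ∀ {M : Type} [CommMonoid M] (F : HeightOneSpectrum R → M),
      ∏ P ∈ T, F P = (∏ P ∈ U', F P) * ∏ P ∈ V', F P := by
    intro M _ F
    rw [hU', hV']
    exact (Finset.prod_sdiff hsub).symm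
  have hUV : ∏ P ∈ T, Nm P = U * V := by rw [hsd, hU, hV]
  have hcard : ∏ a ∈ t, Nat.card (R ⧸ J2 a) = U * V ^ 3 := by
    rw [hpt, hU, hV, ← Finset.prod_pow]
    exact congrArg₂ _ rfl (Finset.prod_congr rfl fun P hP => (hP3' P hP).1)
  have hJ : ∏ a ∈ t, J2 a = (∏ P ∈ T, P.asIdeal) * ∏ P ∈ odd T y, P.asIdeal ^ 2 := by
    rw [hpt, hsd, ← hV', mul_assoc, ← Finset.prod_mul_distrib]
    refine congrArg₂ _ rfl (Finset.prod_congr rfl fun P _ => ?_)
    show P.asIdeal ^ 3 = P.asIdeal * P.asIdeal ^ 2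
    ring
  have hN : (∏ P ∈ T, Nm P) * ∏ P ∈ odd T y, Nm P ^ 2 = U * V ^ 3 := by
    rw [hUV, ← hV', Finset.prod_pow, ← hV]
    ring
  rw [hN] at hMB
  have hpos : ∀ P : HeightOneSpectrum R, 0 < Nm P := fun P => by
    have := hfin P
    have hnt : Nontrivial (R ⧸ P.asIdeal) := Ideal.Quotient.nontrivial_iff.2 P.isPrime.ne_top
    exact Nat.card_pos
  have hUpos : (0 : ℝ) < U := by
    have : 0 < U := hU ▸ Finset.prod_pos fun P _ => hpos P
    exact_mod_cast this
  have hVpos : (0 : ℝ) < V := by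
    have : 0 < V := hV ▸ Finset.prod_pos fun P _ => hpos P
    exact_mod_cast this
  obtain ⟨hGf, hGc⟩ := Pool.NF.Cnt.sym_cnt A hAf MA hMA
  have hSf : {S : Matrix (Fin (2 * g + 1)) (Fin (2 * g + 1)) R | Sᵀ = S ∧
      ∀ i j, S i j ∈ B i j}.Finite :=
    (Pool.NF.Cnt.sym_cnt B hBf (fun i j => ((B i j).ncard : ℝ)) fun i j _ => le_rfl).1
  have hMB0 : 0 ≤ Pool.NF.Cnt.prLe MB := by
    unfold Pool.NF.Cnt.prLe
    refine Finset.prod_nonneg fun i _ => Finset.prod_nonneg fun j _ => ?_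
    by_cases h : i ≤ j
    · rw [if_pos h]
      exact le_trans (by positivity) (hMB i j h _ 0 rfl)
    · rw [if_neg h]
      exact zero_le_one
  rw [hUV, ← hV', ← hV]
  -- the number of matrices `S`
  have hS : ∀ G : Matrix (Fin (2 * g + 1)) (Fin (2 * g + 1)) R,
      2 ^ T.card * ({S : Matrix (Fin (2 * g + 1)) (Fin (2 * g + 1)) R | Sᵀ = S ∧
        (∀ i j, S i j ∈ B i j) ∧
        ∀ a ∈ t, S.map (Ideal.Quotient.mk (J2 a)) ∈ Y2 g c γ y d G a}.ncard : ℝ) *
        ((U * V : ℕ) : ℝ) ^ (2 * g + 1) * (V : ℝ) ^ ((2 * g + 1) * (g + 1)) ≤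
        2 * Pool.NF.Cnt.prLe MB := by
    intro G
    have h1 := ysr R (2 * g + 1) _ t J2 hJF hcop (Y2 g c γ y d G) B MB hBf (fun i j hij r => by
      rw [hcard]
      exact hMB i j hij _ r hJ)
    have hexp : (2 * g + 1) * (2 * g + 1 + 1) / 2 = (2 * g + 1) * (g + 1) := by
      have : (2 * g + 1) * (2 * g + 1 + 1) = 2 * ((2 * g + 1) * (g + 1)) := by ring
      rw [this, Nat.mul_div_cancel_left _ (by norm_num)]
    rw [hexp, hcard, hpt] at h1
    set W' := {S : Matrix (Fin (2 * g + 1)) (Fin (2 * g + 1)) R | Sᵀ = S ∧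
        (∀ i j, S i j ∈ B i j) ∧
        ∀ a ∈ t, S.map (Ideal.Quotient.mk (J2 a)) ∈ Y2 g c γ y d G a}.ncard with hW'
    have hpX := prod_Y2 (c := c) hX hF hP3 hg hok h2 hfin hT y hd1 hd2 G U' V' hmU hV'
    rw [← hU, ← hV] at hpX
    set Z := (∏ P ∈ U', (Y2 g c γ y d G (.inl P)).ncard) *
      ∏ P ∈ V', (Y2 g c γ y d G (.inr P)).ncard with hZ
    have hpX' : (2 : ℝ) ^ T.card * (Z : ℝ) ≤ 2 * ((U : ℝ) ^ ((2 * g + 1) * g) *
      (V : ℝ) ^ ((2 * g + 1) * (2 * g + 1))) := by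
      have : 2 ^ T.card * Z ≤ 2 * (U ^ ((2 * g + 1) * g) *
        V ^ ((2 * g + 1) * (2 * g + 1))) := hpX
      exact_mod_cast this
    have hp : (0 : ℝ) < (U : ℝ) ^ ((2 * g + 1) * g) * (V : ℝ) ^ ((2 * g + 1) * (2 * g + 1)) := by
      positivity
    refine le_of_mul_le_mul_left ?_ hp
    calc (U : ℝ) ^ ((2 * g + 1) * g) * (V : ℝ) ^ ((2 * g + 1) * (2 * g + 1)) *
          (2 ^ T.card * (W' : ℝ) * ((U * V : ℕ) : ℝ) ^ (2 * g + 1) *
            (V : ℝ) ^ ((2 * g + 1) * (g + 1)))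
        = 2 ^ T.card * ((W' : ℝ) * ((U * V ^ 3 : ℕ) : ℝ) ^ ((2 * g + 1) * (g + 1))) := by
          push_cast
          simp only [mul_pow, ← pow_mul]
          have e1 : (2 * g + 1) * (g + 1) = (2 * g + 1) * g + (2 * g + 1) := by ring
          have e2 : 3 * ((2 * g + 1) * (g + 1)) = (2 * g + 1) * (2 * g + 1) + (2 * g + 1) +
            (2 * g + 1) * (g + 1) := by ring
          rw [e2, pow_add (V : ℝ), pow_add (V : ℝ)]
          have e3 : (U : ℝ) ^ ((2 * g + 1) * (g + 1)) =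
            (U : ℝ) ^ ((2 * g + 1) * g) * (U : ℝ) ^ (2 * g + 1) := by rw [e1, pow_add]
          rw [e3]
          ring
      _ ≤ 2 ^ T.card * ((Z : ℝ) * Pool.NF.Cnt.prLe MB) :=
          mul_le_mul_of_nonneg_left h1 (by positivity)
      _ = (2 ^ T.card * (Z : ℝ)) * Pool.NF.Cnt.prLe MB := by ring
      _ ≤ (2 * ((U : ℝ) ^ ((2 * g + 1) * g) * (V : ℝ) ^ ((2 * g + 1) * (2 * g + 1)))) *
          Pool.NF.Cnt.prLe MB := mul_le_mul_of_nonneg_right hpX' hMB0
      _ = (U : ℝ) ^ ((2 * g + 1) * g) * (V : ℝ) ^ ((2 * g + 1) * (2 * g + 1)) *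
          (2 * Pool.NF.Cnt.prLe MB) := by ring
  -- finiteness
  have hPsub : W ⊆ {G : Matrix (Fin (2 * g + 1)) (Fin (2 * g + 1)) R | Gᵀ = G ∧
      ∀ i j, G i j ∈ A i j} ×ˢ
      {G : Matrix (Fin (2 * g + 1)) (Fin (2 * g + 1)) R | Gᵀ = G ∧
      ∀ i j, G i j ∈ B i j} := by
    rintro p hp
    obtain ⟨k1, k2, k3, k4, -⟩ := hW p hp
    exact ⟨⟨k1, k3⟩, ⟨k2, k4⟩⟩
  have hPf : W.Finite := (hGf.prod hSf).subset hPsub
  refine ⟨hPf, ?_⟩
  have hmap : ∀ p ∈ hPf.toFinset, Prod.fst p ∈ hGf.toFinset := by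
    intro p hp
    rw [Set.Finite.mem_toFinset] at hp ⊢
    exact (hPsub hp).1
  have hWcard : (W.ncard : ℝ) = ∑ G ∈ hGf.toFinset,
      ({p ∈ hPf.toFinset | p.1 = G}.card : ℝ) := by
    rw [Set.ncard_eq_toFinset_card _ hPf, Finset.card_eq_sum_card_fiberwise hmap, Nat.cast_sum]
  rw [hWcard, Finset.mul_sum, Finset.sum_mul, Finset.sum_mul]
  calc _ ≤ ∑ _G ∈ hGf.toFinset, 2 * Pool.NF.Cnt.prLe MB := by
        refine Finset.sum_le_sum fun G _ => le_trans ?_ (hS G)
        refine mul_le_mul_of_nonneg_right (mul_le_mul_of_nonneg_right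
          (mul_le_mul_of_nonneg_left ?_ (by positivity)) (by positivity)) (by positivity)
        have hfin' : {S : Matrix (Fin (2 * g + 1)) (Fin (2 * g + 1)) R | Sᵀ = S ∧
            (∀ i j, S i j ∈ B i j) ∧
            ∀ a ∈ t, S.map (Ideal.Quotient.mk (J2 a)) ∈ Y2 g c γ y d G a}.Finite :=
          hSf.subset fun S hS => ⟨hS.1, hS.2.1⟩
        rw [Set.ncard_eq_toFinset_card _ hfin']
        have h5 : {p ∈ hPf.toFinset | p.1 = G}.card ≤ hfin'.toFinset.card := by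
          apply Finset.card_le_card_of_injOn Prod.snd
          · rintro ⟨G', S⟩ hp
            rw [Finset.mem_coe, Finset.mem_filter, Set.Finite.mem_toFinset] at hp
            obtain ⟨hp1, rfl⟩ := hp
            obtain ⟨k1, k2, k3, k4, k5⟩ := hW _ hp1
            rw [Finset.mem_coe, Set.Finite.mem_toFinset]
            refine ⟨k2, k4, ?_⟩
            rintro (P | P) ha
            · have hP := (hmU P).1 (hmt1 P ha)
              have hy : (y P).1 = 0 := by
                have h3 : ¬ (y P).1 = 1 := fun h => hP.2 (by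
                  unfold odd
                  rw [Finset.mem_filter]
                  exact ⟨hP.1, h⟩)
                have h4 : ∀ x : ZMod 2, x ≠ 1 → x = 0 := by decide
                exact h4 _ h3
              exact mem_Y1' (hok P hP.1).1 ((k5 P hP.1).1 hy)
            · have hP := hmt2 P ha
              have hy : (y P).1 = 1 := by
                have h3 : P ∈ odd T y := hV' ▸ hP
                unfold odd at h3
                exact (Finset.mem_filter.1 h3).2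
              exact (k5 P (hVT P hP)).2 hy
          · rintro ⟨G', S⟩ hp ⟨G'', S'⟩ hp' hSS
            rw [Finset.mem_coe, Finset.mem_filter] at hp hp'
            exact Prod.ext (hp.2.trans hp'.2.symm) hSS
        exact_mod_cast h5
    _ = (hGf.toFinset.card : ℝ) * (2 * Pool.NF.Cnt.prLe MB) := by
        rw [Finset.sum_const, nsmul_eq_mul]
    _ ≤ Pool.NF.Cnt.prLe MA * (2 * Pool.NF.Cnt.prLe MB) := by
        refine mul_le_mul_of_nonneg_right ?_ (by positivity)
        rw [← Set.ncard_eq_toFinset_card _ hGf]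
        exact hGc
    _ = 2 * (Pool.NF.Cnt.prLe MA * Pool.NF.Cnt.prLe MB) := by ring

end Pool.PNF
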