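import Pool.Agent.H41.PNF.Cnt

/-!
# PNF: row YTR, the pairs of a pattern as pairs without local conditions
-/

set_option autoImplicit false

namespace Pool.PNF

open Polynomial Matrix NumberField IsDedekindDomain Pool.HYP Pool.TOW Pool.AVS Pool.T1 Pool.NF
  Pool.PRK

/-- YTR. -/
theorem ytr : YTRStmt := by
  intro K _ _ C x D y a d hx
  have hpos : ∀ P : HeightOneSpectrum (𝓞 K), 1 ≤ Nm P := fun P => by
    have : Finite (𝓞 K ⧸ P.asIdeal) := Ideal.finiteQuotientOfFreeOfNeBot _ P.ne_bot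
    have hnt : Nontrivial (𝓞 K ⧸ P.asIdeal) := Ideal.Quotient.nontrivial_iff.2 P.isPrime.ne_top
    exact Nat.card_pos
  have h1 : (1 : ℝ) ≤ ((∏ P ∈ odd D.T y, Nm P : ℕ) : ℝ) := by
    have : 1 ≤ ∏ P ∈ odd D.T y, Nm P := Finset.one_le_prod' fun P _ => hpos P
    exact_mod_cast this
  have hn : 0 < dg K := Module.finrank_pos
  have hn' : (dg K : ℝ) ≠ 0 := by exact_mod_cast hn.ne'
  have hsub : PPy C x D y a d ⊆ PPn C (x * dl D.T y) ⟨∅, D.c, D.γ⟩ d := by
    rintro p ⟨p1, p2, p3, p4, -⟩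
    refine ⟨p1, p2, p3, p4, fun P hP => ?_⟩
    exact absurd hP (Finset.notMem_empty P)
  refine ⟨?_, ?_, hsub, ?_⟩
  · unfold dl
    exact Real.one_le_rpow h1 (by positivity)
  · unfold dl
    rw [← Real.rpow_natCast, ← Real.rpow_mul (by linarith), inv_mul_cancel₀ hn', Real.rpow_one]
  · rintro f p ⟨q1, q2, q3, q4⟩
    exact ⟨hsub q1, q2, q3, q4⟩

end Pool.PNF
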