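import Pool.Agent.H41.PRK.S5
import Pool.Agent.H41.NF.Bad
import Pool.Agent.H33.NF.K
import Pool.Agent.H50.NF.Cnt

/-!
# PNF: the first moment over number fields (statements)

`K` is a number field.  The patterns `y` assign to the primes of `T` the types `(0, e)` or `(1, 0)`;
the primes of type `(1, 0)` are `odd T y`, and `a` is an auxiliary element of `𝓞 K` which is a
uniformizer at the primes of `odd T y` and a unit at the other primes of `T`.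
-/

set_option autoImplicit false

namespace Pool.PNF

open Polynomial Matrix NumberField IsDedekindDomain Pool.HYP Pool.TOW Pool.AVS Pool.T1 Pool.NF
  Pool.PRK

section Defs

variable {K : Type} [Field K] [NumberField K]

/-- The real number `δ` with `δ^n = ∏ Nm P` over the primes of `odd T y`. -/
noncomputable def dl (T : Finset (HeightOneSpectrum (𝓞 K))) (y : HeightOneSpectrum (𝓞 K) → Ty) :
    ℝ :=
  ((∏ P ∈ odd T y, Nm P : ℕ) : ℝ) ^ ((dg K : ℝ)⁻¹)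

/-- The auxiliary element `a`: a uniformizer at the primes of `odd T y`, a unit at the other primes
of `T`. -/
def AuxV (T : Finset (HeightOneSpectrum (𝓞 K))) (y : HeightOneSpectrum (𝓞 K) → Ty) (a : 𝓞 K) :
    Prop :=
  a ≠ 0 ∧ (∀ P ∈ odd T y, a ∈ P.asIdeal ∧ a ∉ P.asIdeal ^ 2) ∧
    ∀ P ∈ T, P ∉ odd T y → a ∉ P.asIdeal

/-- There is a nontrivial class of square norm which is the class of a unit outside `T` and whose
types at the primes of `T` are `y P` (no condition at the primes above `2`). -/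
def PatN (D : DatN K) (ϖ : HeightOneSpectrum (𝓞 K) → 𝓞 K) (y : HeightOneSpectrum (𝓞 K) → Ty)
    (f : (𝓞 K)[X]) : Prop :=
  ∃ α : K[X], UOut D.T f α ∧ (¬ ∃ s, fk K f ∣ α - s ^ 2) ∧
    ∀ P ∈ D.T, TyK P.asIdeal (ϖ P) (D.c P) (D.γ P) f (y P) α

/-- The pairs of symmetric matrices with the bounds given by `C`, `x`, `d` and the local conditions
given by `y` and `a`; the entries of the second matrix are bounded with `x δ`. -/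
def PPy (C x : ℝ) (D : TDat K) (y : HeightOneSpectrum (𝓞 K) → Ty) (a : 𝓞 K) (d : Fin 3 → ℝ) :
    Set (Matrix (Fin 3) (Fin 3) (𝓞 K) × Matrix (Fin 3) (Fin 3) (𝓞 K)) :=
  {p | p.1ᵀ = p.1 ∧ p.2ᵀ = p.2 ∧ (∀ i j, p.1 i j ∈ Bx K (C * Real.exp (d i + d j))) ∧
    (∀ i j, p.2 i j ∈ Bx K (C * (x * dl D.T y) * Real.exp (d i + d j))) ∧
    ∀ P ∈ D.T, LocS 1 P.asIdeal a (D.c P) (D.γ P) ((X - Polynomial.C (D.c P)) * D.γ P) (y P)
      p.1 p.2}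

/-- The pairs of `f`. -/
def PMy (C x : ℝ) (D : TDat K) (y : HeightOneSpectrum (𝓞 K) → Ty) (a : 𝓞 K) (d : Fin 3 → ℝ)
    (f : (𝓞 K)[X]) (p : Matrix (Fin 3) (Fin 3) (𝓞 K) × Matrix (Fin 3) (Fin 3) (𝓞 K)) : Prop :=
  p ∈ PPy C x D y a d ∧ p.1.det ≠ 0 ∧
    (pen p.1 p.2).det = Polynomial.C p.1.det * f.scaleRoots a ∧ ¬ (p.1 0 0 = 0 ∧ p.2 0 0 = 0)

/-- The polynomials of the set `F` which have a pair for `d`. -/
def PFy (C x : ℝ) (D : TDat K) (y : HeightOneSpectrum (𝓞 K) → Ty) (a : 𝓞 K)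
    (F : Set (𝓞 K)[X]) (d : Fin 3 → ℝ) : Set (𝓞 K)[X] :=
  {f ∈ F | ∃ p, PMy C x D y a d f p}

/-- The polynomials of the set `F` which have a pair for some `d` with `sum d ≤ C`: the conclusion of
KEY. -/
def BFy (C x : ℝ) (D : TDat K) (y : HeightOneSpectrum (𝓞 K) → Ty) (a : 𝓞 K)
    (F : Set (𝓞 K)[X]) : Set (𝓞 K)[X] :=
  {f ∈ F | ∃ (d : Fin 3 → ℝ) (p : _), Monotone d ∧ d 0 + d 1 + d 2 ≤ C ∧ PMy C x D y a d f p}

variable (K)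

/-- KEY for the patterns, with the constant `B`. -/
def KeyYN (B : ℝ) : Prop :=
  ∀ (D : DatN K) (Y : ℕ), D.Ok → 1 ≤ Y → (∀ P ∈ D.T, B < (Nm P : ℝ)) →
    ∀ ϖ : HeightOneSpectrum (𝓞 K) → 𝓞 K, Uni D.T ϖ →
    ∀ y : HeightOneSpectrum (𝓞 K) → Ty, (∀ P ∈ D.T, y P ≠ (1, 1)) →
    ∀ a : 𝓞 K, AuxV D.T y a → a ∈ Bx K (B * dl D.T y) → ∀ f ∈ FamN D Y, PatN D ϖ y f →
    ∃ (d : Fin 3 → ℤ) (G S : Matrix (Fin 3) (Fin 3) (𝓞 K)), Monotone d ∧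
      ((∑ i, d i : ℤ) : ℝ) ≤ B ∧ Gᵀ = G ∧ Sᵀ = S ∧
      (∀ i j, G i j ∈ Bx K (B * Real.exp ((d i + d j : ℤ) : ℝ))) ∧
      (∀ i j, S i j ∈ Bx K (B * Real.exp ((d i + d j : ℤ) : ℝ) * Y * dl D.T y)) ∧ G.det ≠ 0 ∧
      (pen G S).det = C G.det * f.scaleRoots a ∧
      (∀ P ∈ D.T, LocS 1 P.asIdeal a (D.c P) (D.γ P) f (y P) G S) ∧ ¬ (G 0 0 = 0 ∧ S 0 0 = 0)

/-- The first moment, with the constants `C` and `b`. -/
def AvN (T' : Finset (HeightOneSpectrum (𝓞 K))) (C : ℝ) (b : ℕ) : Prop :=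
  ∀ D : DatN K, D.Ok → D.T' = T' → (∀ P ∈ D.T, b < Nm P ∧ 6 * D.T.card ≤ Nm P) →
    ∀ ϖ : HeightOneSpectrum (𝓞 K) → 𝓞 K, Uni D.T ϖ →
    ∀ y : HeightOneSpectrum (𝓞 K) → Ty, (∀ P ∈ D.T, y P ≠ (1, 1)) → ∃ Y₀ : ℕ, ∀ Y : ℕ, Y₀ ≤ Y →
      2 ^ D.T.card * ({f ∈ FamN D Y | PatN D ϖ y f}.ncard : ℝ) ≤ C * (FamN D Y).ncard

end Defs

/-- YAUX: the auxiliary element.  (`I = ∏ P` over `odd T y`.  Two elements of `Bx K ρ`,
`ρ^n = max (1, Ni I / c + 1)`, are congruent modulo `I` (BXL), so there is `a ≠ 0` in `I` and in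
`Bx K (2 ρ)`; `(a) = I J` and the norm of `J` is at most a constant (NRM), less than `Nm P`.) -/
def YAUXStmt : Prop :=
  BXLStmt → NRMStmt → ∀ (K : Type) [Field K] [NumberField K], ∃ B : ℝ, 1 ≤ B ∧
    ∀ (T : Finset (HeightOneSpectrum (𝓞 K))) (y : HeightOneSpectrum (𝓞 K) → Ty),
    (∀ P ∈ T, B < (Nm P : ℝ)) → ∃ a : 𝓞 K, AuxV T y a ∧ a ∈ Bx K (B * dl T y)

/-- YLS: the local conditions depend only on `f` modulo `P`, and they are preserved by matrices of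
determinant one.  (As NST; for `UnS` and for `RaS` replace `a` by `a u`.) -/
def YLSStmt : Prop :=
  ∀ (R : Type) [CommRing R] [IsDedekindDomain R] (P : HeightOneSpectrum R) (g : ℕ) (d c : R)
    (γ f f' : R[X]) (y : Ty) (G S : Matrix (Fin (2 * g + 1)) (Fin (2 * g + 1)) R), f.Monic →
    f'.Monic → f.natDegree = 2 * g + 1 → f'.natDegree = 2 * g + 1 → Zer P.asIdeal (f - f') →
    LocS g P.asIdeal d c γ f y G S →
    LocS g P.asIdeal d c γ f' y G S ∧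
      ∀ u : Matrix (Fin (2 * g + 1)) (Fin (2 * g + 1)) R, u.det = 1 →
        LocS g P.asIdeal d c γ f y (uᵀ * G * u) (uᵀ * S * u)

/-- YSR: symmetric matrices with entries in given sets and with given residues modulo coprime
ideals (as `sym_res` of H50/NF/Cnt and CTRG of PRK). -/
def YSRStmt : Prop :=
  ∀ (R : Type) [CommRing R] (n : ℕ) (ι : Type) (t : Finset ι) (J : ι → Ideal R),
    (∀ i ∈ t, Finite (R ⧸ J i)) → (∀ i ∈ t, ∀ j ∈ t, i ≠ j → IsCoprime (J i) (J j)) →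
    ∀ (X : ∀ i : ι, Set (Matrix (Fin n) (Fin n) (R ⧸ J i))) (B : Fin n → Fin n → Set R)
    (M : Fin n → Fin n → ℝ), (∀ i j, (B i j).Finite) →
    (∀ i j, i ≤ j → ∀ r : R, ({b ∈ B i j | b - r ∈ ∏ a ∈ t, J a}.ncard : ℝ) *
      ((∏ a ∈ t, Nat.card (R ⧸ J a) : ℕ) : ℝ) ≤ M i j) →
    ({S : Matrix (Fin n) (Fin n) R | Sᵀ = S ∧ (∀ i j, S i j ∈ B i j) ∧
      ∀ a ∈ t, S.map (Ideal.Quotient.mk (J a)) ∈ X a}.ncard : ℝ) *
        ((∏ a ∈ t, Nat.card (R ⧸ J a) : ℕ) : ℝ) ^ (n * (n + 1) / 2) ≤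
      ((∏ a ∈ t, (X a).ncard : ℕ) : ℝ) * Pool.NF.Cnt.prLe M

/-- YPR: the number of the pairs with local conditions, general form.  (From YSR with the ideals `P`
for the primes of type `(0, _)` and `P³` for those of type `(1, _)`, CTXY, FBK, P3K: as
H41/PRK/CTMY (`prod_Y`, `card_prod`), and `pair_cnt` of H50/NF/Cnt.) -/
def YPRStmt : Prop :=
  CTXYStmt → FBKStmt → P3KStmt →
  ∀ (R : Type) [CommRing R] [IsDedekindDomain R] (g : ℕ) (T : Finset (HeightOneSpectrum R))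
    (y : HeightOneSpectrum R → Ty) (c : HeightOneSpectrum R → R) (γ : HeightOneSpectrum R → R[X])
    (a : R), 1 ≤ g → (∀ P : HeightOneSpectrum R, Finite (R ⧸ P.asIdeal)) →
    (∀ P ∈ T, (2 : R) ∉ P.asIdeal) → (∀ P ∈ T, OkP (2 * g) P.asIdeal (γ P)) →
    (∀ P ∈ T, 2 * (2 * g + 1) * T.card ≤ Nm P) →
    (∀ P ∈ odd T y, a ∈ P.asIdeal ∧ a ∉ P.asIdeal ^ 2) →
    (∀ P ∈ T, P ∉ odd T y → a ∉ P.asIdeal) →
    ∀ (A B : Fin (2 * g + 1) → Fin (2 * g + 1) → Set R)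
    (MA MB : Fin (2 * g + 1) → Fin (2 * g + 1) → ℝ),
    (∀ i j, (A i j).Finite) → (∀ i j, (B i j).Finite) →
    (∀ i j, i ≤ j → ((A i j).ncard : ℝ) ≤ MA i j) →
    (∀ i j, i ≤ j → ∀ (J : Ideal R) (r : R),
      J = (∏ P ∈ T, P.asIdeal) * ∏ P ∈ odd T y, P.asIdeal ^ 2 →
      ({b ∈ B i j | b - r ∈ J}.ncard : ℝ) *
        (((∏ P ∈ T, Nm P) * ∏ P ∈ odd T y, Nm P ^ 2 : ℕ) : ℝ) ≤ MB i j) →
    ∀ W : Set (Matrix (Fin (2 * g + 1)) (Fin (2 * g + 1)) R ×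
      Matrix (Fin (2 * g + 1)) (Fin (2 * g + 1)) R),
    (∀ p ∈ W, p.1ᵀ = p.1 ∧ p.2ᵀ = p.2 ∧ (∀ i j, p.1 i j ∈ A i j) ∧ (∀ i j, p.2 i j ∈ B i j) ∧
      ∀ P ∈ T, LocS g P.asIdeal a (c P) (γ P) ((X - C (c P)) * γ P) (y P) p.1 p.2) →
    W.Finite ∧ 2 ^ T.card * (W.ncard : ℝ) * ((∏ P ∈ T, Nm P : ℕ) : ℝ) ^ (2 * g + 1) *
        ((∏ P ∈ odd T y, Nm P : ℕ) : ℝ) ^ ((2 * g + 1) * (g + 1)) ≤
      2 * (Pool.NF.Cnt.prLe MA * Pool.NF.Cnt.prLe MB)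

/-- YPM: the number of the pairs, large boxes (from BXU and YPR, `g = 1`; as NPM,
H90/NF/{Est,NPM}; `δ^(6 n)` cancels against the factor of YPR). -/
def YPMStmt : Prop :=
  BXUStmt → YPRStmt → CTXYStmt → FBKStmt → P3KStmt →
  ∀ (K : Type) [Field K] [NumberField K] (C : ℝ), 1 ≤ C →
    ∃ c : ℝ, 0 < c ∧ ∀ (D : TDat K) (y : HeightOneSpectrum (𝓞 K) → Ty) (a : 𝓞 K) (d : Fin 3 → ℝ)
    (x : ℝ), D.Ok → AuxV D.T y a → Adn C d → 1 ≤ x →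
    ((D.N : ℝ) * ((∏ P ∈ odd D.T y, Nm P : ℕ) : ℝ) ^ 2 ≤
      (C * (x * dl D.T y) * Real.exp (2 * d 0)) ^ dg K) →
    (PPy C x D y a d).Finite ∧
    2 ^ D.T.card * ((PPy C x D y a d).ncard : ℝ) * (D.N : ℝ) ^ 3 ≤
      c * x ^ (6 * dg K) * Real.exp (-(3 * dg K) * d 0)

/-- YTR: a pair for the pattern is a pair without local conditions, so NPT, NAD and NRO apply.
(`x' = x δ ≥ x ≥ 1`, the local data with `T = ∅`, and `f.scaleRoots a`.) -/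
def YTRStmt : Prop :=
  ∀ (K : Type) [Field K] [NumberField K] (C x : ℝ) (D : TDat K)
    (y : HeightOneSpectrum (𝓞 K) → Ty) (a : 𝓞 K) (d : Fin 3 → ℝ), 1 ≤ x →
    1 ≤ dl D.T y ∧ dl D.T y ^ dg K = ((∏ P ∈ odd D.T y, Nm P : ℕ) : ℝ) ∧
    PPy C x D y a d ⊆ PPn C (x * dl D.T y) ⟨∅, D.c, D.γ⟩ d ∧
    ∀ (f : (𝓞 K)[X]) (p : _), PMy C x D y a d f p →
      PMn C (x * dl D.T y) ⟨∅, D.c, D.γ⟩ d (f.scaleRoots a) p

/-- YCO: orbits (as NCO: `orbit_cnt` of H50/NF/Cnt for the polynomials `f.scaleRoots a`; YLS). -/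
def YCOStmt : Prop :=
  YLSStmt → ∀ (K : Type) [Field K] [NumberField K] (C x : ℝ) (D : TDat K)
    (y : HeightOneSpectrum (𝓞 K) → Ty) (a : 𝓞 K) (d : Fin 3 → ℝ)
    (F : Set (𝓞 K)[X]), 0 ≤ C → 0 ≤ x → Monotone d → a ≠ 0 → (∀ f ∈ F, Irreducible (fk K f)) →
    (∀ P ∈ D.T, OkP 2 P.asIdeal (D.γ P)) → (PPy (9 * C) x D y a d).Finite →
    (PFy C x D y a F d).Finite ∧
    (PFy C x D y a F d).ncard * (UUn K d).ncard ≤ (PPy (9 * C) x D y a d).ncard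

/-- YCNT: the final bound (as NCNT, H50/NF/NCNT; in small boxes the factor is `x^(-n/2)` times a
constant which depends on `D`, `y`). -/
def YCNTStmt : Prop :=
  NPTStmt → NUUStmt → NADStmt → NROStmt → NSUStmt → NFIStmt → YLSStmt → YTRStmt → YCOStmt →
  (∀ (K : Type) [Field K] [NumberField K] (C : ℝ), 1 ≤ C →
    ∃ c : ℝ, 0 < c ∧ ∀ (D : TDat K) (y : HeightOneSpectrum (𝓞 K) → Ty) (a : 𝓞 K) (d : Fin 3 → ℝ)
    (x : ℝ), D.Ok → AuxV D.T y a → Adn C d → 1 ≤ x →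
    ((D.N : ℝ) * ((∏ P ∈ odd D.T y, Nm P : ℕ) : ℝ) ^ 2 ≤
      (C * (x * dl D.T y) * Real.exp (2 * d 0)) ^ dg K) →
    (PPy C x D y a d).Finite ∧
    2 ^ D.T.card * ((PPy C x D y a d).ncard : ℝ) * (D.N : ℝ) ^ 3 ≤
      c * x ^ (6 * dg K) * Real.exp (-(3 * dg K) * d 0)) →
  ∀ (K : Type) [Field K] [NumberField K] (C : ℝ), 1 ≤ C →
    ∃ c : ℝ, 0 < c ∧ ∀ (D : TDat K) (y : HeightOneSpectrum (𝓞 K) → Ty) (a : 𝓞 K), D.Ok →
    AuxV D.T y a →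
    ∃ x₀ : ℝ, ∀ x : ℝ, x₀ ≤ x → ∀ F : Set (𝓞 K)[X], (∀ f ∈ F, Irreducible (fk K f)) →
    (BFy C x D y a F).Finite ∧
    2 ^ D.T.card * ((BFy C x D y a F).ncard : ℝ) * (D.N : ℝ) ^ 3 ≤ c * x ^ (6 * dg K)

/-- YAV: the first moment (as BADN, H94/NF/BADN; `hcnt` is the conclusion of YCNT). -/
def YAVStmt : Prop :=
  YLSStmt →
  (∀ (K : Type) [Field K] [NumberField K] (C : ℝ), 1 ≤ C →
    ∃ c : ℝ, 0 < c ∧ ∀ (D : TDat K) (y : HeightOneSpectrum (𝓞 K) → Ty) (a : 𝓞 K), D.Ok →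
    AuxV D.T y a →
    ∃ x₀ : ℝ, ∀ x : ℝ, x₀ ≤ x → ∀ F : Set (𝓞 K)[X], (∀ f ∈ F, Irreducible (fk K f)) →
    (BFy C x D y a F).Finite ∧
    2 ^ D.T.card * ((BFy C x D y a F).ncard : ℝ) * (D.N : ℝ) ^ 3 ≤ c * x ^ (6 * dg K)) →
  ∀ (K : Type) [Field K] [NumberField K],
    (∃ B : ℝ, 1 ≤ B ∧ ∀ (T : Finset (HeightOneSpectrum (𝓞 K)))
      (y : HeightOneSpectrum (𝓞 K) → Ty), (∀ P ∈ T, B < (Nm P : ℝ)) →
      ∃ a : 𝓞 K, AuxV T y a ∧ a ∈ Bx K (B * dl T y)) →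
    (∃ B : ℝ, ∀ B' : ℝ, B ≤ B' → KeyYN K B') → (∃ c : ℝ, FamLN K c) →
    (∀ (D : DatN K) (Y : ℕ), D.Ok → ∀ f ∈ FamN D Y, Irreducible (fk K f)) →
    ∀ T' : Finset (HeightOneSpectrum (𝓞 K)), ∃ (C : ℝ) (b : ℕ), AvN K T' C b

end Pool.PNF
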